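import Pool.Agent.Helper53.Basis

/-!
# Degree sequences of graphs with exactly `k` cycles: reduction to bounded length, for every `k`

For every `k ≥ 1` and every `p` the sequences of length `p` which are realizable as a `k`-cyclic
graph are determined, through explicit inequalities and parity conditions, by the realizable
sequences without ones of length at most `max 3 (8 (k - μ) - 2)`, where `μ ≥ 1` is the cyclomatic
number.
-/

open Finset

namespace Pool.Agent.Results.MP_e633d5_co.FiniteBasis

/-- The edge sets of the cycles of `G`.  Two cycles are distinct when these sets differ. -/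
def cycleEdgeSets {V : Type*} (G : SimpleGraph V) : Set (Set (Sym2 V)) :=
  {s | ∃ (v : V) (w : G.Walk v v), w.IsCycle ∧ s = {e | e ∈ w.edges}}

/-- `d` is realizable as a `k`-cyclic graph: some connected simple graph on the vertex set `V`
with exactly `k` distinct cycles has degrees `d`. -/
def RealizableKCyclic {V : Type*} (d : V → ℕ) (k : ℕ) : Prop :=
  ∃ G : SimpleGraph V, G.Connected ∧ (cycleEdgeSets G).ncard = k ∧
    ∀ v, (G.neighborSet v).ncard = d v

/-- The core sequence: the numbers `c i` for `i ∈ A`, followed by `m` twos. -/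
def coreSeq {p : ℕ} (A : Finset (Fin p)) (c : Fin p → ℕ) (m : ℕ) : A ⊕ Fin m → ℕ :=
  Sum.elim (fun i => c i) (fun _ => 2)

open Pool.Agent.Helper53 in
/-- **Theorem.**  Let `k ≥ 1`.  A sequence `d` of length `p` is realizable as a `k`-cyclic graph
if and only if its terms are positive, its sum is `2 (p - 1 + μ)` for some `1 ≤ μ ≤ k`, and there
is a core: a set `A` of indices, numbers `3 ≤ c i ≤ d i` for `i ∈ A`, and numbers `m`, `μ₀ ≤ μ`,
such that the core sequence (the `c i` and `m` twos) has length at most
`max 3 (8 (k - μ) - 2)`, is realizable as a `(μ₀ + k - μ)`-cyclic graph and has cyclomatic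
number `μ₀`, and four explicit conditions hold: `m ≥ 1` or `μ₀ = μ`; an upper bound for the
number of ones of `d`; an upper bound for the number of odd terms among the `d i - c i`, `i ∈ A`,
and the `d i`, `i ∉ A`; at most as many of the `d i - c i`, `i ∈ A`, are odd as of the `d i`,
`i ∉ A`. -/
theorem result (p k : ℕ) (hk : 1 ≤ k) (d : Fin p → ℕ) :
    RealizableKCyclic d k ↔
      (∀ i, 1 ≤ d i) ∧ ∃ μ, 1 ≤ μ ∧ μ ≤ k ∧ ∑ i, d i + 2 = 2 * (p + μ) ∧
      ∃ (A : Finset (Fin p)) (c : Fin p → ℕ) (m μ₀ : ℕ),
        A.card + m ≤ max 3 (8 * (k - μ) - 2) ∧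
        RealizableKCyclic (coreSeq A c m) (μ₀ + (k - μ)) ∧
        (∀ i ∈ A, 3 ≤ c i ∧ c i ≤ d i) ∧
        ∑ i ∈ A, c i + 2 = 2 * (A.card + μ₀) ∧
        μ₀ ≤ μ ∧ (1 ≤ m ∨ μ₀ = μ) ∧
        (univ.filter (fun i => d i = 1)).card + 2 * μ + m + A.card ≤ p + 2 * μ₀ ∧
        (A.filter (fun i => Odd (d i - c i))).card +
          (univ.filter (fun i => i ∉ A ∧ Odd (d i))).card + 4 * μ + 2 * m + 2 * A.card
            ≤ 2 * p + 4 * μ₀ ∧
        (A.filter (fun i => Odd (d i - c i))).card ≤
          (univ.filter (fun i => i ∉ A ∧ Odd (d i))).card := by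
  have h := finite_basis k hk d
  unfold Fits at h
  rw [Fintype.card_fin] at h
  exact h

end Pool.Agent.Results.MP_e633d5_co.FiniteBasis
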