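import Pool.Agent.Helper53.RichE

/-!
# Degree sequences of graphs with exactly `k` cycles: sequences with many large terms

For sequences with at least `14 L` terms `≥ 3` and not too many ones we characterise
realizability as a `k`-cyclic graph for all `k < μ + 2 ^ L`, where `μ` is the cyclomatic number:
the only obstruction is a parity phenomenon for sequences all of whose terms are even.
-/

open Finset

namespace Pool.Agent.Results.MP_e633d5_co.RichRange

/-- The edge sets of the cycles of `G`.  Two cycles are distinct when these sets differ. -/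
def cycleEdgeSets {V : Type*} (G : SimpleGraph V) : Set (Set (Sym2 V)) :=
  {s | ∃ (v : V) (w : G.Walk v v), w.IsCycle ∧ s = {e | e ∈ w.edges}}

/-- `d` is realizable as a `k`-cyclic graph: some connected simple graph on `p` vertices with
exactly `k` distinct cycles has degrees `d`. -/
def RealizableKCyclic {p : ℕ} (d : Fin p → ℕ) (k : ℕ) : Prop :=
  ∃ G : SimpleGraph (Fin p), G.Connected ∧ (cycleEdgeSets G).ncard = k ∧
    ∀ i, (G.neighborSet i).ncard = d i

open Pool.Agent.Helper53 in
/-- **Theorem.**  Let `L ≥ 1` and let `d` be a sequence of `p` positive integers with sum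
`2 (p - 1 + μ)`, where `μ > 6 L`.  Suppose that at least `14 L` terms are `≥ 3`, at most
`p + 1 - 2 μ - 4 L` terms equal `1` and at most `2 p - 4 μ - 2` terms are odd.  Then for every
`k < μ + 2 ^ L` the sequence `d` is realizable as a `k`-cyclic graph if and only if `μ ≤ k` and,
in case all terms are even, `k - μ = 3 a + 7 b` for some natural numbers `a`, `b` (that is,
`k - μ` is not one of `1, 2, 4, 5, 8, 11`). -/
theorem result (p L μ : ℕ) (hL : 1 ≤ L) (d : Fin p → ℕ) (hd : ∀ i, 1 ≤ d i)
    (hsum : ∑ i, d i + 2 = 2 * (p + μ)) (hμ : 6 * L < μ)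
    (h3 : 14 * L ≤ (univ.filter (fun i => 3 ≤ d i)).card)
    (hones : (univ.filter (fun i => d i = 1)).card + 2 * μ + 4 * L ≤ p + 1)
    (hodds : (univ.filter (fun i => Odd (d i))).card + 4 * μ + 2 ≤ 2 * p)
    (k : ℕ) (hk : k < μ + 2 ^ L) :
    RealizableKCyclic d k ↔
      μ ≤ k ∧ ((∀ i, Even (d i)) → ∃ a b : ℕ, k = μ + (3 * a + 7 * b)) := by
  classical
  have c1 : (univ.filter (fun i => d i = 1)).card = ∑ x, i1 (d x) := by
    rw [card_filter]; rfl
  have c3 : (univ.filter (fun i => 3 ≤ d i)).card = ∑ x, i3 (d x) := by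
    rw [card_filter]; rfl
  have co : (univ.filter (fun i => Odd (d i))).card = ∑ x, io (d x) := by
    rw [card_filter]
    refine sum_congr rfl ?_
    intro x _
    unfold io
    rcases Nat.even_or_odd (d x) with h | h
    · rw [if_neg (Nat.not_odd_iff_even.mpr h), Nat.even_iff.mp h]
    · rw [if_pos h, Nat.odd_iff.mp h]
  rw [c3] at h3
  rw [co] at hodds
  rw [c1] at hones
  have h := rich_iff hL hd (by rw [Fintype.card_fin]; exact hsum) hμ h3
    (by rw [Fintype.card_fin]; exact hones) (by rw [Fintype.card_fin]; exact hodds) hk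
  simp only [Nat.even_iff]
  exact h

end Pool.Agent.Results.MP_e633d5_co.RichRange
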