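import Pool.Agent.Helper53.Small

/-!
# Degree sequences of graphs with exactly `k` cycles: complete conditions for `k ≤ 8`, and for
every `k` when the cyclomatic number is at least `k - 2`
-/

open Finset

namespace Pool.Agent.Results.MP_e633d5_co.SmallExcess

/-- The edge sets of the cycles of `G`.  Two cycles are distinct when these sets differ. -/
def cycleEdgeSets {V : Type*} (G : SimpleGraph V) : Set (Set (Sym2 V)) :=
  {s | ∃ (v : V) (w : G.Walk v v), w.IsCycle ∧ s = {e | e ∈ w.edges}}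

/-- `d` is realizable as a `k`-cyclic graph: some connected simple graph on `p` vertices with
exactly `k` distinct cycles has degrees `d`. -/
def RealizableKCyclic {p : ℕ} (d : Fin p → ℕ) (k : ℕ) : Prop :=
  ∃ G : SimpleGraph (Fin p), G.Connected ∧ (cycleEdgeSets G).ncard = k ∧
    ∀ i, (G.neighborSet i).ncard = d i

/-- the number of terms equal to one -/
def ones {p : ℕ} (d : Fin p → ℕ) : ℕ := (univ.filter (fun i => d i = 1)).card

/-- the number of odd terms -/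
def odds {p : ℕ} (d : Fin p → ℕ) : ℕ := (univ.filter (fun i => Odd (d i))).card

/-- the number of terms which are at least three -/
def large {p : ℕ} (d : Fin p → ℕ) : ℕ := (univ.filter (fun i => 3 ≤ d i)).card

/-- The explicit conditions on a sequence of cyclomatic number `μ`; the last argument is
`k - μ`. -/
def Conditions {p : ℕ} (d : Fin p → ℕ) (μ : ℕ) : ℕ → Prop
  | 0 => ones d + 2 * μ + 1 ≤ p ∧ odds d + 4 * μ + 2 ≤ 2 * p
  | 1 => 2 ≤ μ ∧ 2 ≤ large d ∧ 2 ≤ odds d ∧ ones d + 2 * μ ≤ p ∧ odds d + 4 * μ ≤ 2 * p + 2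
  | 2 => 4 ≤ μ ∧ 3 ≤ large d ∧ 2 ≤ odds d ∧ ones d + 2 * μ ≤ p + 1 ∧
      odds d + 4 * μ ≤ 2 * p + 6 ∧ (4 ≤ large d ∨ ∃ i, 6 ≤ d i) ∧
      (4 ≤ odds d ∨ (∃ i, 6 ≤ d i ∧ Even (d i)) ∨ (4 ≤ large d ∧ ones d + 2 * μ ≤ p))
  | 3 => 3 ≤ μ ∧ ones d + 2 * μ ≤ p + 1 ∧ odds d + 4 * μ ≤ 2 * p + 4 ∧
      ((3 ≤ large d ∧ (∃ i, 4 ≤ d i) ∧ 2 ≤ odds d) ∨
        ((∃ i j, i ≠ j ∧ 4 ≤ d i ∧ 4 ≤ d j) ∧ odds d + 4 * μ ≤ 2 * p + 2 ∧
          ¬ (large d = 2 ∧ ones d = 0 ∧ 1 ≤ odds d)) ∨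
        (4 ≤ large d ∧ 4 ≤ odds d ∧ ones d + 2 * μ ≤ p))
  | 4 => 3 ≤ μ ∧ 4 ≤ large d ∧ 4 ≤ odds d ∧ ones d + 2 * μ ≤ p + 2 ∧
      odds d + 4 * μ ≤ 2 * p + 8 ∧
      (μ = 4 → (ones d + 2 * μ < p + 2 ∨ ∃ i, 5 ≤ d i) ∧
        (odds d + 4 * μ < 2 * p + 8 ∨ ∃ i, 5 ≤ d i ∧ Odd (d i)))
  | _ => False

open Pool.Agent.Helper53 in
theorem conditions_iff {p : ℕ} (d : Fin p → ℕ) (μ e : ℕ) : Conditions d μ e ↔ Cnd d μ e := by
  have c1 : ones d = ∑ x, i1 (d x) := by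
    unfold ones; rw [card_filter]; rfl
  have c3 : large d = ∑ x, i3 (d x) := by
    unfold large; rw [card_filter]; rfl
  have co : odds d = ∑ x, io (d x) := by
    unfold odds
    rw [card_filter]
    refine sum_congr rfl ?_
    intro x _
    unfold io
    rcases Nat.even_or_odd (d x) with h | h
    · rw [if_neg (Nat.not_odd_iff_even.mpr h), Nat.even_iff.mp h]
    · rw [if_pos h, Nat.odd_iff.mp h]
  unfold Cnd
  match e with
  | 0 => simp [Conditions, c1, co]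
  | 1 => simp [Conditions, c1, c3, co]
  | 2 => simp [Conditions, c1, c3, co, Nat.even_iff]
  | 3 => simp [Conditions, c1, c3, co]
  | 4 => simp [Conditions, c1, c3, co, Nat.odd_iff]
  | (n + 5) =>
    simp only [Conditions, false_iff]
    omega

open Pool.Agent.Helper53 in
/-- **Theorem.**  Let `k ≥ 1` and let `d` be a sequence of length `p`.  Suppose that `k ≤ 8`, or
that `k` exceeds the cyclomatic number of `d` by at most two (i.e. `2 (p + k) ≤ ∑ d i + 6`).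
Then `d` is realizable as a `k`-cyclic graph if and only if all its terms are positive, its sum
is `2 (p - 1 + μ)` for some `1 ≤ μ ≤ k`, and the explicit conditions `Conditions d μ (k - μ)`
hold. -/
theorem result (p k : ℕ) (hk : 1 ≤ k) (d : Fin p → ℕ)
    (h : k ≤ 8 ∨ 2 * (p + k) ≤ ∑ i, d i + 6) :
    RealizableKCyclic d k ↔
      (∀ i, 1 ≤ d i) ∧ ∃ μ, 1 ≤ μ ∧ μ ≤ k ∧ ∑ i, d i + 2 = 2 * (p + μ) ∧
        Conditions d μ (k - μ) := by
  have hs := small_iff k hk d (by rw [Fintype.card_fin]; exact h)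
  rw [Fintype.card_fin] at hs
  simp only [conditions_iff]
  exact hs

end Pool.Agent.Results.MP_e633d5_co.SmallExcess
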