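import Pool.Agent.Helper53.Suff

/-!
# Degree sequences of graphs with exactly `k` cycles: the sparse range

For every `k` and every sequence of positive integers whose cyclomatic number `μ` satisfies
`2 k ≤ 3 μ`, and which has at least `2 (k - μ)` terms `≥ 3` and at least `2 (k - μ)` odd terms,
we characterise realizability as a `k`-cyclic graph.
-/

open Finset

namespace Pool.Agent.Results.MP_e633d5_co.SparseRange

/-- The edge sets of the cycles of `G`.  Two cycles are distinct when these sets differ. -/
def cycleEdgeSets {V : Type*} (G : SimpleGraph V) : Set (Set (Sym2 V)) :=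
  {s | ∃ (v : V) (w : G.Walk v v), w.IsCycle ∧ s = {e | e ∈ w.edges}}

/-- `d` is realizable as a `k`-cyclic graph: some connected simple graph on `p` vertices with
exactly `k` distinct cycles has degrees `d`. -/
def RealizableKCyclic {p : ℕ} (d : Fin p → ℕ) (k : ℕ) : Prop :=
  ∃ G : SimpleGraph (Fin p), G.Connected ∧ (cycleEdgeSets G).ncard = k ∧
    ∀ i, (G.neighborSet i).ncard = d i

open Pool.Agent.Helper53 in
theorem realizable_of_good {p k : ℕ} {d : Fin p → ℕ} (h : Good univ d k) :
    RealizableKCyclic d k := by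
  classical
  obtain ⟨F, hok, hdeg, hk⟩ := h
  set G : SimpleGraph (Fin p) := SimpleGraph.fromEdgeSet (F : Set (Sym2 (Fin p))) with hG
  have hF : ∀ e, e ∈ F ↔ e ∈ G.edgeSet := by
    intro e
    rw [hG, SimpleGraph.edgeSet_fromEdgeSet]
    constructor
    · intro h; exact ⟨by exact_mod_cast h, hok.nd e h⟩
    · intro h; exact_mod_cast h.1
  refine ⟨G, ?_, ?_, ?_⟩
  · obtain ⟨x, _⟩ := hok.ne
    have : Nonempty (Fin p) := ⟨x⟩
    exact ⟨fun x y => hok.con x (mem_univ _) y (mem_univ _)⟩
  · have := ncard_cycleSets G hF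
    rw [hk] at this
    exact this
  · intro i
    rw [ncard_neighborSet G hF, hdeg i (mem_univ _)]

open Pool.Agent.Helper53 in
/-- **Theorem.**  Let `d` be a sequence of `p` positive integers with sum `2 (p - 1 + μ)`,
`μ ≥ 1`, and let `μ ≤ k ≤ 3 μ / 2`.  Suppose that at least `2 (k - μ)` of the `d i` are `≥ 3`
and at least `2 (k - μ)` of them are odd.  Then `d` is realizable as a `k`-cyclic graph if and
only if at most `p - 1 + k - 3 μ` of the `d i` equal `1` and at most `2 (p - 1) + 4 k - 8 μ` of
them are odd. -/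
theorem result (p k μ : ℕ) (d : Fin p → ℕ) (hd : ∀ i, 1 ≤ d i) (hμ : 1 ≤ μ)
    (hsum : ∑ i, d i + 2 = 2 * (p + μ)) (hμk : μ ≤ k) (hk : 2 * k ≤ 3 * μ)
    (h3 : 2 * (k - μ) ≤ (univ.filter (fun i => 3 ≤ d i)).card)
    (ho : 2 * (k - μ) ≤ (univ.filter (fun i => Odd (d i))).card) :
    RealizableKCyclic d k ↔
      (univ.filter (fun i => d i = 1)).card + 3 * μ + 1 ≤ p + k ∧
      (univ.filter (fun i => Odd (d i))).card + 8 * μ + 2 ≤ 2 * p + 4 * k := by
  classical
  have c1 : (univ.filter (fun i => d i = 1)).card = ∑ x, i1 (d x) := by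
    rw [card_filter]; rfl
  have c3 : (univ.filter (fun i => 3 ≤ d i)).card = ∑ x, i3 (d x) := by
    rw [card_filter]; rfl
  have co : (univ.filter (fun i => Odd (d i))).card = ∑ x, io (d x) := by
    rw [card_filter]
    refine sum_congr rfl ?_
    intro x _
    unfold io
    rcases Nat.even_or_odd (d x) with h | h
    · rw [if_neg (Nat.not_odd_iff_even.mpr h), Nat.even_iff.mp h]
    · rw [if_pos h, Nat.odd_iff.mp h]
  constructor
  · rintro ⟨G, hG, hkG, hdeg⟩
    have hp3 : 3 ≤ p := by
      by_contra hlt
      have hp2 : p ≤ 2 := by omega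
      -- degrees are at most p - 1 ≤ 1
      have hle : ∀ i, d i ≤ 1 := by
        intro i
        rw [← hdeg i]
        have h1 : G.neighborSet i ⊆ (({i}ᶜ : Set (Fin p))) := by
          intro y hy
          simp only [Set.mem_compl_iff, Set.mem_singleton_iff]
          rintro rfl
          exact G.loopless.irrefl _ hy
        have h2 := Set.ncard_le_ncard h1 (Set.toFinite _)
        have h3 : ({i}ᶜ : Set (Fin p)).ncard = p - 1 := by
          rw [Set.ncard_compl, Set.ncard_singleton, Nat.card_eq_fintype_card, Fintype.card_fin]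
        omega
      have hs : ∑ i, d i ≤ ∑ _i : Fin p, 1 := sum_le_sum (fun i _ => hle i)
      have hp0 : 0 < p := by
        obtain ⟨x⟩ := hG.nonempty
        exact lt_of_le_of_lt (Nat.zero_le _) x.isLt
      simp at hs
      omega
    have hs : ∑ v, (G.neighborSet v).ncard + 2 = 2 * (Fintype.card (Fin p) + μ) := by
      rw [Fintype.card_fin, ← hsum]
      congr 1
      exact sum_congr rfl (fun v _ => hdeg v)
    have hn := necessary G hG (by rw [Fintype.card_fin]; exact hp3) hs (k := k) hkG
    rw [Fintype.card_fin] at hn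
    simp only [hdeg] at hn
    exact ⟨hn.1, hn.2.1⟩
  · rintro ⟨hN1, hN2⟩
    apply realizable_of_good
    have := suff p univ d μ (k - μ) (by simp) (fun v _ => hd v) hsum hμ (by omega)
      (by rw [← c3]; exact h3) (by rw [← co]; exact ho) (by rw [← c1]; omega)
      (by rw [← co]; omega)
    have e1 : μ + (k - μ) = k := by omega
    rwa [e1] at this

end Pool.Agent.Results.MP_e633d5_co.SparseRange
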